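import Mathlib
import Pool.Agent.Q253.CP.Stm
import Pool.Agent.Q96.GM.Low

set_option autoImplicit false

/-!
# The near range, trivially (job CP-NR)
-/

namespace Pool.Agent.Q195.CP

open MeasureTheory Filter Topology Set Complex
open Pool.Agent.Q253.HV Pool.Agent.Q253.LQ Pool.Agent.Q253.CP
open Pool.Agent.Q260.GM (Dl ph)
open Pool.Agent.Q96.GM (Dl_integral_le Dl_intervalIntegrable measurable_Dl)

lemma psiC_sub_le {q : ℕ} (χ : DirichletCharacter ℂ q) {x y : ℝ} (h : x ≤ y) :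
    ‖psiC χ y - psiC χ x‖ ≤ Chebyshev.psi y - Chebyshev.psi x := by
  have hsub : Finset.Ioc 0 ⌊x⌋₊ ⊆ Finset.Ioc 0 ⌊y⌋₊ := by
    apply Finset.Ioc_subset_Ioc_right
    exact Nat.floor_le_floor h
  have e1 : ∀ z : ℝ, psiC χ z = ∑ n ∈ Finset.Ioc 0 ⌊z⌋₊,
      ((ArithmeticFunction.vonMangoldt n : ℝ) : ℂ) * χ (n : ZMod q) := by
    intro z
    unfold psiC
    rfl
  have e2 : Chebyshev.psi y - Chebyshev.psi x =
      ∑ n ∈ Finset.Ioc 0 ⌊y⌋₊ \ Finset.Ioc 0 ⌊x⌋₊, ArithmeticFunction.vonMangoldt n := by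
    rw [Chebyshev.psi, Chebyshev.psi, ← Finset.sum_sdiff hsub]
    ring
  rw [e1, e1, ← Finset.sum_sdiff hsub, add_sub_cancel_right, e2]
  refine (norm_sum_le _ _).trans (Finset.sum_le_sum fun n _ => ?_)
  rw [norm_mul, Complex.norm_real, Real.norm_eq_abs,
    abs_of_nonneg ArithmeticFunction.vonMangoldt_nonneg]
  have := DirichletCharacter.norm_le_one χ (n : ZMod q)
  have h0 : (0 : ℝ) ≤ ArithmeticFunction.vonMangoldt n := ArithmeticFunction.vonMangoldt_nonneg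
  nlinarith

lemma psi_sub_eq {κ t : ℝ} : Chebyshev.psi (Real.exp (t + κ)) - Chebyshev.psi (Real.exp t) =
    Real.exp (t / 2) * Dl κ t + (Real.exp κ - 1) * Real.exp t := by
  have h1 : Real.exp (t / 2) * Dl κ t = ph (t + κ) - ph t := by
    unfold Dl
    rw [← mul_assoc, ← Real.exp_add]
    simp
  rw [h1]
  unfold ph
  rw [Real.exp_add]
  ring

lemma fX_sub_le {q : ℕ} [NeZero q] (X : Finset (DirichletCharacter ℂ q)) {κ t : ℝ} (hκ : 0 < κ) :
    ‖fX X (t + κ) - fX X t‖ ≤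
      (X.card + 1) * (Real.exp (t / 2) * |Dl κ t| + (Real.exp κ - 1) * Real.exp t) := by
  classical
  have hek : 0 ≤ Real.exp κ - 1 := by linarith [Real.add_one_le_exp κ]
  have hB : 0 ≤ Real.exp (t / 2) * |Dl κ t| + (Real.exp κ - 1) * Real.exp t := by positivity
  set B := Real.exp (t / 2) * |Dl κ t| + (Real.exp κ - 1) * Real.exp t with hBdef
  have hle : Real.exp t ≤ Real.exp (t + κ) := Real.exp_le_exp.2 (by linarith)
  have h1 : ∀ χ ∈ X, ‖psiC χ (Real.exp (t + κ)) - psiC χ (Real.exp t)‖ ≤ B := by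
    intro χ _
    refine (psiC_sub_le χ hle).trans ?_
    rw [psi_sub_eq, hBdef]
    have := le_abs_self (Dl κ t)
    have h2 := Real.exp_pos (t / 2)
    nlinarith
  have h2 : fX X (t + κ) - fX X t =
      (∑ χ ∈ X, (psiC χ (Real.exp (t + κ)) - psiC χ (Real.exp t))) -
      (if (1 : DirichletCharacter ℂ q) ∈ X then ((Real.exp (t + κ) - Real.exp t : ℝ) : ℂ) else 0) := by
    unfold fX
    rw [Finset.sum_sub_distrib]
    split_ifs <;> push_cast <;> ring
  rw [h2]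
  refine (norm_sub_le _ _).trans ?_
  have h3 : ‖∑ χ ∈ X, (psiC χ (Real.exp (t + κ)) - psiC χ (Real.exp t))‖ ≤ X.card * B := by
    refine (norm_sum_le _ _).trans ((Finset.sum_le_sum h1).trans ?_)
    rw [Finset.sum_const, nsmul_eq_mul]
  have h4 : ‖(if (1 : DirichletCharacter ℂ q) ∈ X then
      ((Real.exp (t + κ) - Real.exp t : ℝ) : ℂ) else 0)‖ ≤ B := by
    split_ifs
    · rw [Complex.norm_real, Real.norm_eq_abs, abs_of_nonneg (by linarith)]
      have : Real.exp (t + κ) - Real.exp t = (Real.exp κ - 1) * Real.exp t := by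
        rw [Real.exp_add]; ring
      rw [this, hBdef]
      have : 0 ≤ Real.exp (t / 2) * |Dl κ t| := by positivity
      linarith
    · rw [norm_zero]; exact hB
  linarith

theorem t_NR : S_NR := by
  intro q _ X
  refine ⟨300 * (X.card + 1) ^ 2, fun κ hκ hκ4 => ?_⟩
  set L := LL κ with hL
  set K : ℝ := (X.card : ℝ) + 1 with hK
  have hK1 : 1 ≤ K := by
    have : (0 : ℝ) ≤ X.card := Nat.cast_nonneg _
    linarith
  have hexpL : Real.exp L = 1 / κ := by
    rw [hL, LL, Real.exp_log (by positivity)]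
  have hL1 : 1 ≤ L := by
    rw [← Real.exp_le_exp, hexpL]
    have h1 := Real.exp_one_lt_d9
    have h2 : (4 : ℝ) ≤ 1 / κ := by
      rw [le_div_iff₀ hκ]; linarith
    linarith
  have hek0 : 0 ≤ Real.exp κ - 1 := by linarith [Real.add_one_le_exp κ]
  have hek : Real.exp κ - 1 ≤ 5 / 4 * κ := by
    have h1 := Real.abs_exp_sub_one_sub_id_le (x := κ) (by rw [abs_of_pos hκ]; linarith)
    have h2 := le_abs_self (Real.exp κ - 1 - κ)
    nlinarith
  have hk2 : Real.exp L * (Real.exp κ - 1) ≤ ((2 : ℕ) : ℝ) := by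
    rw [hexpL, div_mul_eq_mul_div, one_mul, div_le_iff₀ hκ]
    push_cast
    linarith
  have hD := Dl_integral_le hκ (by linarith) le_rfl (by linarith : (0 : ℝ) ≤ L) hk2
  have hsq : (Real.exp κ - 1) ^ 2 * Real.exp L ≤ 25 / 16 * κ := by
    rw [hexpL]
    have h1 : (Real.exp κ - 1) ^ 2 ≤ (5 / 4 * κ) ^ 2 := pow_le_pow_left₀ hek0 hek 2
    calc (Real.exp κ - 1) ^ 2 * (1 / κ) ≤ (5 / 4 * κ) ^ 2 * (1 / κ) := by gcongr
      _ = 25 / 16 * κ := by field_simp; ring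
  have hD2 : ∫ u in (0 : ℝ)..L, Dl κ u ^ 2 ≤ 143 * (κ * L ^ 2) := by
    refine hD.trans ?_
    have h1 : (L ^ 2 - 0 ^ 2) / 2 + 28 * (L + 1) ≤ 113 / 2 * L ^ 2 := by nlinarith
    have h0 : 0 ≤ (L ^ 2 - 0 ^ 2) / 2 + 28 * (L + 1) := by nlinarith
    have h2 : (Real.exp κ - 1) * ((L ^ 2 - 0 ^ 2) / 2 + 28 * (L + 1)) ≤
        5 / 4 * κ * (113 / 2 * L ^ 2) := mul_le_mul hek h1 h0 (by positivity)
    have h3 : κ ≤ κ * L ^ 2 := le_mul_of_one_le_right hκ.le (one_le_pow₀ hL1)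
    push_cast
    nlinarith
  have hi2 : IntervalIntegrable (fun u => (Real.exp κ - 1) ^ 2 * Real.exp u) volume 0 L :=
    (by fun_prop : Continuous fun u => (Real.exp κ - 1) ^ 2 * Real.exp u).intervalIntegrable _ _
  have hi1 := Dl_intervalIntegrable hκ le_rfl (by linarith : (0 : ℝ) ≤ L)
  have hR : ∫ u in (0 : ℝ)..L, 2 * K ^ 2 * (Dl κ u ^ 2 + (Real.exp κ - 1) ^ 2 * Real.exp u) ≤
      300 * K ^ 2 * κ * L ^ 2 := by
    rw [intervalIntegral.integral_const_mul, intervalIntegral.integral_add hi1 hi2,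
      intervalIntegral.integral_const_mul, integral_exp, Real.exp_zero]
    have h1 : (Real.exp κ - 1) ^ 2 * (Real.exp L - 1) ≤ 25 / 16 * κ := by
      have := sq_nonneg (Real.exp κ - 1)
      nlinarith
    have h3 : κ ≤ κ * L ^ 2 := le_mul_of_one_le_right hκ.le (one_le_pow₀ hL1)
    have h4 : (∫ u in (0 : ℝ)..L, Dl κ u ^ 2) + (Real.exp κ - 1) ^ 2 * (Real.exp L - 1) ≤
        150 * (κ * L ^ 2) := by linarith
    have h5 : 2 * K ^ 2 * ((∫ u in (0 : ℝ)..L, Dl κ u ^ 2) +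
        (Real.exp κ - 1) ^ 2 * (Real.exp L - 1)) ≤ 2 * K ^ 2 * (150 * (κ * L ^ 2)) :=
      mul_le_mul_of_nonneg_left h4 (by positivity)
    linarith
  by_cases hint : IntervalIntegrable
      (fun t => ‖fX X (t + κ) - fX X t‖ ^ 2 * Real.exp (-t)) volume 0 L
  · refine (intervalIntegral.integral_mono_on (by linarith) hint
      ((hi1.add hi2).const_mul (2 * K ^ 2)) fun t ht => ?_).trans hR
    have h1 := fX_sub_le X (t := t) hκ
    rw [← hK] at h1
    have h2 : ‖fX X (t + κ) - fX X t‖ ^ 2 ≤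
        (K * (Real.exp (t / 2) * |Dl κ t| + (Real.exp κ - 1) * Real.exp t)) ^ 2 :=
      pow_le_pow_left₀ (norm_nonneg _) h1 2
    have h3 : (Real.exp (t / 2) * |Dl κ t| + (Real.exp κ - 1) * Real.exp t) ^ 2 ≤
        2 * (Real.exp t * Dl κ t ^ 2 + (Real.exp κ - 1) ^ 2 * Real.exp t ^ 2) := by
      have e1 : Real.exp (t / 2) ^ 2 = Real.exp t := by
        rw [← Real.exp_nat_mul]; congr 1; push_cast; ring
      have e2 : |Dl κ t| ^ 2 = Dl κ t ^ 2 := sq_abs _
      have h4 := add_sq_le (a := Real.exp (t / 2) * |Dl κ t|) (b := (Real.exp κ - 1) * Real.exp t)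
      rw [mul_pow, mul_pow, e1, e2] at h4
      exact h4
    have hee : Real.exp t * Real.exp (-t) = 1 := by rw [← Real.exp_add]; simp
    calc ‖fX X (t + κ) - fX X t‖ ^ 2 * Real.exp (-t)
        ≤ (K * (Real.exp (t / 2) * |Dl κ t| + (Real.exp κ - 1) * Real.exp t)) ^ 2 *
          Real.exp (-t) := by gcongr
      _ = K ^ 2 * (Real.exp (t / 2) * |Dl κ t| + (Real.exp κ - 1) * Real.exp t) ^ 2 *
          Real.exp (-t) := by rw [mul_pow]
      _ ≤ K ^ 2 * (2 * (Real.exp t * Dl κ t ^ 2 + (Real.exp κ - 1) ^ 2 * Real.exp t ^ 2)) *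
          Real.exp (-t) := by gcongr
      _ = 2 * K ^ 2 * ((Real.exp t * Real.exp (-t)) * Dl κ t ^ 2 +
          (Real.exp κ - 1) ^ 2 * Real.exp t * (Real.exp t * Real.exp (-t))) := by ring
      _ = 2 * K ^ 2 * (Dl κ t ^ 2 + (Real.exp κ - 1) ^ 2 * Real.exp t) := by rw [hee]; ring
  · rw [intervalIntegral.integral_undef hint]
    positivity

end Pool.Agent.Q195.CP
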