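import Pool.Agent.Q253.CP.Stm
import Pool.Agent.Q14.LQ.SY
import Pool.Agent.H370R2.Dyadic

set_option autoImplicit false

/-!
# The Riemann - von Mangoldt formula, leading term (job CP-NT)
-/

namespace Pool.Agent.Q195.CP.NT

open MeasureTheory Filter Topology Set Complex
open Pool.Agent.Q253.HV Pool.Agent.Q253.LQ Pool.Agent.Q253.CP
open DirichletCharacter (LFunction)
open H370 Pool.Agent.Q14.LQ

/-- `N(1, T) = T log T / 2π + O(T)` -/
theorem NT_asymp {F : ℂ → ℂ} (hF : GoodL F) : ∃ C T0 : ℝ, 0 < C ∧ 10 ≤ T0 ∧ ∀ T : ℝ, T0 ≤ T →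
    |(NN F 1 T : ℝ) - T * Real.log T / (2 * Real.pi)| ≤ C * T := by
  obtain ⟨C, T0, hC, hT0, h⟩ := nn_asymp hF
  have hpi := Real.pi_gt_three
  set f : ℝ → ℝ := fun T => (NN F 1 T : ℝ) with hf
  set K : ℝ := f (2 * T0) + 2 * T0 * Real.log (2 * T0) with hK
  have hf0 : ∀ T, 0 ≤ f T := fun T => Nat.cast_nonneg _
  have hlog0 : 0 ≤ Real.log (2 * T0) := Real.log_nonneg (by linarith)
  have hK0 : 0 ≤ K := by
    have := hf0 (2 * T0)
    positivity
  have hstep : ∀ V : ℝ, T0 ≤ V → |f (2 * V) - 2 * V * Real.log (2 * V) / (2 * Real.pi)| ≤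
      |f V - V * Real.log V / (2 * Real.pi)| + (C + 1) * V := by
    intro V hV
    have hV0 : 0 < V := by linarith
    have h1 := h V hV V (2 * V) le_rfl (by linarith) (by linarith) le_rfl
    have h2 : f (2 * V) = f V + NN F V (2 * V) := by
      have := NN_add hF (a := 1) (b := V) (c := 2 * V) le_rfl (by linarith) (by linarith)
      simp only [hf]
      rw [this]
      push_cast
      ring
    have h3 : Real.log (2 * V) = Real.log 2 + Real.log V := Real.log_mul (by norm_num) hV0.ne'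
    have h4 : f (2 * V) - 2 * V * Real.log (2 * V) / (2 * Real.pi) =
        (f V - V * Real.log V / (2 * Real.pi)) +
        ((NN F V (2 * V) : ℝ) - V * Real.log V / (2 * Real.pi)) +
        (-(2 * V * Real.log 2 / (2 * Real.pi))) := by
      rw [h2, h3]
      field_simp
      ring
    rw [h4]
    have h5 : |-(2 * V * Real.log 2 / (2 * Real.pi))| ≤ V := by
      have h6 : 0 < Real.log 2 := Real.log_pos (by norm_num)
      rw [abs_neg, abs_of_nonneg (by positivity), div_le_iff₀ (by positivity)]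
      have h7 := Real.log_two_lt_d9
      nlinarith
    calc _ ≤ |(f V - V * Real.log V / (2 * Real.pi)) +
        ((NN F V (2 * V) : ℝ) - V * Real.log V / (2 * Real.pi))| + _ := abs_add_le _ _
      _ ≤ (|f V - V * Real.log V / (2 * Real.pi)| +
        |(NN F V (2 * V) : ℝ) - V * Real.log V / (2 * Real.pi)|) + _ := by
          gcongr
          exact abs_add_le _ _
      _ ≤ _ := by linarith
  have key : ∀ k : ℕ, ∀ T : ℝ, T0 ≤ T → T ≤ 2 ^ (k + 1) * T0 →
      |f T - T * Real.log T / (2 * Real.pi)| ≤ (C + 1 + K) * T := by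
    intro k
    induction k with
    | zero =>
      intro T h1 h2
      have h2' : T ≤ 2 * T0 := by simpa using h2
      have hT : 0 < T := by linarith
      have h3 : f T ≤ f (2 * T0) := by
        simp only [hf]
        have h4 := NN_add hF (a := 1) (b := T) (c := 2 * T0) le_rfl (by linarith) h2'
        rw [h4]
        push_cast
        have : (0 : ℝ) ≤ NN F T (2 * T0) := Nat.cast_nonneg _
        linarith
      have h5 : 0 ≤ T * Real.log T / (2 * Real.pi) := by
        have := Real.log_nonneg (show 1 ≤ T by linarith)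
        positivity
      have h6 : T * Real.log T / (2 * Real.pi) ≤ 2 * T0 * Real.log (2 * T0) := by
        have h7 : Real.log T ≤ Real.log (2 * T0) := Real.log_le_log hT h2'
        have h8 := Real.log_nonneg (show 1 ≤ T by linarith)
        have h9 : T * Real.log T ≤ 2 * T0 * Real.log (2 * T0) := by gcongr
        refine (div_le_self (by positivity) (by linarith)).trans h9
      have h10 := hf0 T
      have h11 : |f T - T * Real.log T / (2 * Real.pi)| ≤ K := by
        rw [abs_le]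
        constructor
        · have := hf0 (2 * T0)
          linarith
        · linarith [mul_nonneg (show 0 ≤ 2 * T0 by linarith) hlog0]
      refine h11.trans ?_
      nlinarith
    | succ k ih =>
      intro T h1 h2
      rcases le_or_gt T (2 ^ (k + 1) * T0) with h3 | h3
      · exact ih T h1 h3
      · have hV : T0 ≤ T / 2 := by
          have : (2 : ℝ) ≤ 2 ^ (k + 1) := by
            calc (2 : ℝ) = 2 ^ 1 := by norm_num
              _ ≤ _ := pow_le_pow_right₀ (by norm_num) (by omega)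
          nlinarith
        have hV2 : T / 2 ≤ 2 ^ (k + 1) * T0 := by
          rw [pow_succ] at h2
          linarith
        have h4 := ih (T / 2) hV hV2
        have h5 := hstep (T / 2) hV
        rw [show 2 * (T / 2) = T by ring] at h5
        refine h5.trans ?_
        nlinarith
  refine ⟨C + 1 + K, T0, by positivity, hT0, fun T hT => ?_⟩
  obtain ⟨k, hk⟩ := pow_unbounded_of_one_lt (T / T0) (show (1 : ℝ) < 2 by norm_num)
  refine key k T hT ?_
  rw [div_lt_iff₀ (by linarith)] at hk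
  have : (2 : ℝ) ^ k * T0 ≤ 2 ^ (k + 1) * T0 := by
    rw [pow_succ]
    have : (0 : ℝ) < 2 ^ k := by positivity
    nlinarith
  linarith

theorem NN_lim {F : ℂ → ℂ} (hF : GoodL F) :
    Tendsto (fun T : ℝ => (NN F 1 T : ℝ) / (T * Real.log T)) atTop (𝓝 (1 / (2 * Real.pi))) := by
  obtain ⟨C, T0, hC, hT0, h⟩ := NT_asymp hF
  have hpi := Real.pi_pos
  rw [tendsto_iff_norm_sub_tendsto_zero]
  have h1 : Tendsto (fun T : ℝ => C / Real.log T) atTop (𝓝 0) :=
    Real.tendsto_log_atTop.const_div_atTop C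
  refine squeeze_zero' (Eventually.of_forall fun _ => norm_nonneg _) ?_ h1
  filter_upwards [eventually_ge_atTop T0] with T hT
  have hT1 : 1 < T := by linarith
  have hL : 0 < Real.log T := Real.log_pos hT1
  have hX : 0 < T * Real.log T := by positivity
  rw [Real.norm_eq_abs]
  have e2 : (NN F 1 T : ℝ) / (T * Real.log T) - 1 / (2 * Real.pi) =
      ((NN F 1 T : ℝ) - T * Real.log T / (2 * Real.pi)) / (T * Real.log T) := by
    field_simp
  rw [e2, abs_div, abs_of_pos hX, div_le_div_iff₀ hX hL]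
  have := mul_le_mul_of_nonneg_right (h T hT) hL.le
  calc _ ≤ C * T * Real.log T := this
    _ = _ := by ring

lemma half_ne (γ : ℝ) : (1 / 2 + (γ : ℂ) * I) ≠ 1 := by
  intro h
  have := congrArg Complex.re h
  norm_num at this

lemma half_re' (γ : ℝ) : (1 / 2 + (γ : ℂ) * I).re = 1 / 2 := by norm_num

lemma half_im' (γ : ℝ) : (1 / 2 + (γ : ℂ) * I).im = γ := by norm_num

/-- the order of an imprimitive L-function at a point with positive real part -/
lemma ord_prim {q : ℕ} [NeZero q] (χ : DirichletCharacter ℂ q) [NeZero χ.conductor]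
    {s : ℂ} (hs : 0 < s.re) (hs1 : s ≠ 1) :
    analyticOrderAt (LFunction χ) s = analyticOrderAt (LFunction χ.primitiveCharacter) s := by
  set ψ := χ.primitiveCharacter with hψ
  have hfac : ∀ w : ℂ, w ≠ 1 → LFunction χ w = LFunction ψ w *
      ∏ p ∈ q.primeFactors, (1 - ψ p * (p : ℂ) ^ (-w)) := fun w hw => by
    have h := DirichletCharacter.LFunction_changeLevel χ.conductor_dvd_level ψ (s := w) (Or.inr hw)
    rwa [χ.changeLevel_primitiveCharacter] at h
  have hev : LFunction χ =ᶠ[𝓝 s] (LFunction ψ * fun w : ℂ =>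
      ∏ p ∈ q.primeFactors, (1 - ψ p * (p : ℂ) ^ (-w))) := by
    filter_upwards [isOpen_ne.mem_nhds hs1] with w hw
    exact hfac w hw
  have hg : AnalyticAt ℂ (fun w : ℂ => ∏ p ∈ q.primeFactors, (1 - ψ p * (p : ℂ) ^ (-w))) s := by
    refine Finset.analyticAt_fun_prod _ fun p hp => ?_
    have hp0 : (p : ℂ) ≠ 0 := by exact_mod_cast (Nat.prime_of_mem_primeFactors hp).ne_zero
    have hd : Differentiable ℂ (fun w : ℂ => 1 - ψ p * (p : ℂ) ^ (-w)) := by
      intro w
      have h1 : HasDerivAt (fun s : ℂ => -s) (-1) w := (hasDerivAt_id w).neg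
      exact (((h1.const_cpow (Or.inl hp0)).const_mul (ψ p)).const_sub 1).differentiableAt
    exact hd.analyticAt s
  have hg0 : ∏ p ∈ q.primeFactors, (1 - ψ p * (p : ℂ) ^ (-s)) ≠ 0 := by
    refine Finset.prod_ne_zero_iff.2 fun p hp => ?_
    have hpp := Nat.prime_of_mem_primeFactors hp
    have hp0 : (0 : ℝ) < p := by exact_mod_cast hpp.pos
    have hp1 : (1 : ℝ) < p := by exact_mod_cast hpp.one_lt
    intro h
    have h2 : ψ p * (p : ℂ) ^ (-s) = 1 := by linear_combination -h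
    have h3 : ‖ψ p * (p : ℂ) ^ (-s)‖ < 1 := by
      rw [norm_mul, ← Complex.ofReal_natCast, norm_cpow_eq_rpow_re_of_pos hp0, neg_re]
      have h4 := DirichletCharacter.norm_le_one ψ (p : ZMod χ.conductor)
      have h5 : (p : ℝ) ^ (-s.re) < 1 := Real.rpow_lt_one_of_one_lt_of_neg hp1 (by linarith)
      have h6 : 0 < (p : ℝ) ^ (-s.re) := Real.rpow_pos_of_pos hp0 _
      nlinarith [norm_nonneg (ψ p)]
    rw [h2, norm_one] at h3
    exact lt_irrefl _ h3
  rw [analyticOrderAt_congr hev, analyticOrderAt_mul (LF_an ψ hs1) hg,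
    hg.analyticOrderAt_eq_zero.2 hg0, add_zero]

lemma mc_prim {q : ℕ} [NeZero q] (χ : DirichletCharacter ℂ q) [NeZero χ.conductor] (γ : ℝ) :
    mc χ γ = mult (LFunction χ.primitiveCharacter) (1 / 2 + (γ : ℂ) * I) := by
  unfold mc mult analyticOrderNatAt
  rw [ord_prim χ (by rw [half_re']; norm_num) (half_ne γ)]

/-- under GRH the zeros in the strip are on the line -/
lemma zeros_line {q : ℕ} [NeZero q] (χ : DirichletCharacter ℂ q) [NeZero χ.conductor]
    (hχ : GRHc χ) {T : ℝ} {s : ℂ}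
    (hs : s ∈ zset (LFunction χ.primitiveCharacter) 1 T) : s.re = 1 / 2 := by
  set ψ := χ.primitiveCharacter with hψ
  have hgood := good_dirichlet ψ χ.primitiveCharacter_isPrimitive
  have hne1 : ∀ w : ℂ, 1 < w.im → w ≠ 1 := fun w hw h => by
    rw [h] at hw; simp at hw; linarith
  have hord : ∀ w : ℂ, w ≠ 1 → (analyticOrderAt (LFunction ψ) w ≠ 0 ↔ LFunction ψ w = 0) := by
    intro w hw
    rw [Ne, (LF_an ψ hw).analyticOrderAt_eq_zero, not_not]
  have hkey : ∀ w : ℂ, 1 / 2 < w.re → w.re < 1 → 1 < w.im → LFunction ψ w ≠ 0 := by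
    intro w h1 h2 h3 h4
    have h5 := (hord w (hne1 w h3)).2 h4
    rw [hψ, ← ord_prim χ (by linarith) (hne1 w h3)] at h5
    have h6 : LFunction χ w = 0 := by
      by_contra h7
      exact h5 ((LF_an χ (hne1 w h3)).analyticOrderAt_eq_zero.2 h7)
    exact hχ w h1 h2 h6
  obtain ⟨h1, h2, h3, h4, h5⟩ := hs
  rcases lt_trichotomy s.re (1 / 2) with h | h | h
  · exfalso
    have h6 := hgood.symm s h1 h2 h3.le
    have hne := (hord s (hne1 s h3)).2 h5
    rw [← h6] at hne
    have him : (1 - (starRingEnd ℂ) s).im = s.im := by simp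
    have hre : (1 - (starRingEnd ℂ) s).re = 1 - s.re := by simp
    have h7 := (hord (1 - (starRingEnd ℂ) s) (hne1 _ (by rw [him]; exact h3))).1 hne
    exact hkey _ (by rw [hre]; linarith) (by rw [hre]; linarith) (by rw [him]; exact h3) h7
  · exact h
  · exact absurd h5 (hkey s h h2 h3)

lemma mult_eq_zero {F : ℂ → ℂ} {s : ℂ} (h : AnalyticAt ℂ F s) (h0 : F s ≠ 0) : mult F s = 0 := by
  unfold mult analyticOrderNatAt
  rw [h.analyticOrderAt_eq_zero.2 h0]
  rfl

lemma sum_pos {q : ℕ} [NeZero q] (χ : DirichletCharacter ℂ q) [NeZero χ.conductor]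
    (hχ : GRHc χ) (T : ℝ) :
    ∑ᶠ γ ∈ Ioc 1 T, mc χ γ = NN (LFunction χ.primitiveCharacter) 1 T := by
  set ψ := χ.primitiveCharacter with hψ
  set t : Set ℂ := {s : ℂ | s.re = 1 / 2 ∧ 1 < s.im ∧ s.im ≤ T} with ht
  have h1 : ∑ᶠ γ ∈ Ioc 1 T, mc χ γ = ∑ᶠ s ∈ t, mult (LFunction ψ) s := by
    refine finsum_mem_eq_of_bijOn (fun γ : ℝ => 1 / 2 + (γ : ℂ) * I) ⟨?_, ?_, ?_⟩ ?_
    · intro γ hγ
      refine ⟨half_re' γ, ?_, ?_⟩
      · rw [half_im']; exact hγ.1
      · rw [half_im']; exact hγ.2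
    · intro a _ b _ hab
      have := congrArg Complex.im hab
      simpa using this
    · intro s hs
      refine ⟨s.im, ⟨hs.2.1, hs.2.2⟩, ?_⟩
      apply Complex.ext
      · rw [half_re', hs.1]
      · rw [half_im']
    · intro γ _
      exact mc_prim χ γ
  rw [h1]
  unfold NN
  refine finsum_mem_inter_support_eq' _ _ _ fun s hs => ?_
  constructor
  · rintro ⟨a1, a2, a3⟩
    refine ⟨by rw [a1]; norm_num, by rw [a1]; norm_num, a2, a3, ?_⟩
    by_contra h0
    refine hs (mult_eq_zero (LF_an ψ ?_) h0)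
    intro h
    rw [h] at a1
    norm_num at a1
  · intro h
    exact ⟨zeros_line χ hχ h, h.2.2.1, h.2.2.2.1⟩

lemma GRHc_inv {q : ℕ} [NeZero q] {χ : DirichletCharacter ℂ q} (hχ : GRHc χ) : GRHc χ⁻¹ := by
  intro s h1 h2 h3
  have hs : (starRingEnd ℂ) s ≠ 1 := by
    intro h
    have := congrArg Complex.re h
    rw [conj_re, one_re] at this
    linarith
  have h4 := H370.DL.LFunction_conj χ _ hs
  rw [conj_conj, h3] at h4
  refine hχ ((starRingEnd ℂ) s) (by rw [conj_re]; exact h1) (by rw [conj_re]; exact h2) ?_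
  have h5 := h4.symm
  rwa [map_eq_zero] at h5

lemma fin_zeros {q : ℕ} [NeZero q] (χ : DirichletCharacter ℂ q) (U : ℝ) :
    {γ : ℝ | |γ| ≤ U ∧ mc χ γ ≠ 0}.Finite := by
  have hK : IsCompact (Icc (1 / 2 : ℝ) (1 / 2) ×ℂ Icc (-U) U) := isCompact_Icc.reProdIm isCompact_Icc
  have h2 : LFunction χ 2 ≠ 0 :=
    DirichletCharacter.LFunction_ne_zero_of_one_le_re χ (Or.inr (by norm_num)) (by norm_num)
  have h1 : ∀ᶠ s in 𝓝[≠] (1 : ℂ), LFunction χ s ≠ 0 := by
    by_cases hχ : χ = 1
    · subst hχ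
      have h := DirichletCharacter.LFunctionTrivChar_residue_one (N := q)
      have hne : ∏ p ∈ q.primeFactors, (1 - (p : ℂ)⁻¹) ≠ 0 := by
        refine Finset.prod_ne_zero_iff.2 fun p hp => ?_
        have hp1 : (1 : ℝ) < p := by exact_mod_cast (Nat.prime_of_mem_primeFactors hp).one_lt
        rw [sub_ne_zero]
        intro h
        have h3 : (p : ℂ) = 1 := by rw [eq_comm, inv_eq_one] at h; exact h
        have : (p : ℝ) = 1 := by exact_mod_cast h3
        linarith
      have h3 := h.eventually_ne hne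
      filter_upwards [h3] with s hs h0
      apply hs
      show (s - 1) * LFunction (1 : DirichletCharacter ℂ q) s = 0
      rw [h0, mul_zero]
    · have hc : ContinuousAt (LFunction χ) 1 :=
        (DirichletCharacter.differentiable_LFunction hχ).continuous.continuousAt
      exact (hc.eventually_ne (DirichletCharacter.LFunction_apply_one_ne_zero hχ)).filter_mono
        nhdsWithin_le_nhds
  have hfin := finite_zeros_compact (F := LFunction χ) (fun s hs => LF_an χ hs) h2 h1 hK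
  have hinj : Set.InjOn (fun γ : ℝ => 1 / 2 + (γ : ℂ) * I) (Set.univ) := by
    intro a _ b _ hab
    have := congrArg Complex.im hab
    simpa using this
  refine (hfin.preimage (hinj.mono (subset_univ _))).subset fun γ hγ => ?_
  show (1 / 2 + (γ : ℂ) * I) ∈ _ ∧ _
  refine ⟨⟨?_, ?_⟩, ?_⟩
  · rw [Set.mem_preimage, half_re']
    exact ⟨le_rfl, le_rfl⟩
  · rw [Set.mem_preimage, half_im']
    exact abs_le.1 hγ.1
  · by_contra h0
    exact hγ.2 (mult_eq_zero (LF_an χ (half_ne γ)) h0)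

theorem t_NT : S_NT := by
  intro q _ χ hχ
  refine ⟨fin_zeros χ, ?_⟩
  haveI i1 : NeZero χ.conductor := ⟨χ.conductor_ne_zero⟩
  haveI i2 : NeZero (χ⁻¹).conductor := ⟨(χ⁻¹).conductor_ne_zero⟩
  have hsplit : ∀ U : ℝ, 1 ≤ U → Nm (mc χ) U = Nm (mc χ) 1 +
      NN (LFunction χ.primitiveCharacter) 1 U + NN (LFunction (χ⁻¹).primitiveCharacter) 1 U := by
    intro U hU
    have hs0 : ∀ s : Set ℝ, s ⊆ {γ : ℝ | |γ| ≤ U} → (s ∩ Function.support (mc χ)).Finite := by
      intro s hs
      exact (fin_zeros χ U).subset fun γ hγ => ⟨hs hγ.1, hγ.2⟩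
    have e1 : {γ : ℝ | |γ| ≤ U} = ({γ : ℝ | |γ| ≤ 1} ∪ Ioc 1 U) ∪ Ico (-U) (-1) := by
      ext γ
      simp only [mem_ofPred_eq, mem_union, mem_Ioc, mem_Ico, abs_le]
      constructor
      · rintro ⟨h1, h2⟩
        by_cases h3 : 1 < γ
        · exact Or.inl (Or.inr ⟨h3, h2⟩)
        · by_cases h4 : γ < -1
          · exact Or.inr ⟨h1, h4⟩
          · exact Or.inl (Or.inl ⟨not_lt.1 h4, not_lt.1 h3⟩)
      · rintro ((⟨h1, h2⟩ | ⟨h1, h2⟩) | ⟨h1, h2⟩)
        · exact ⟨by linarith, by linarith⟩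
        · exact ⟨by linarith, by linarith⟩
        · exact ⟨by linarith, by linarith⟩
    have hA : {γ : ℝ | |γ| ≤ 1} ⊆ {γ : ℝ | |γ| ≤ U} := fun γ hγ => le_trans hγ hU
    have hB : Ioc 1 U ⊆ {γ : ℝ | |γ| ≤ U} := fun γ hγ => by
      rw [mem_ofPred_eq, abs_le]; exact ⟨by linarith [hγ.1], hγ.2⟩
    have hC : Ico (-U) (-1) ⊆ {γ : ℝ | |γ| ≤ U} := fun γ hγ => by
      rw [mem_ofPred_eq, abs_le]; exact ⟨hγ.1, by linarith [hγ.2]⟩
    have hneg : ∑ᶠ γ ∈ Ico (-U) (-1), mc χ γ = ∑ᶠ γ ∈ Ioc 1 U, mc χ⁻¹ γ := by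
      refine finsum_mem_eq_of_bijOn (fun γ : ℝ => -γ) ⟨?_, ?_, ?_⟩ ?_
      · intro γ hγ
        exact ⟨by linarith [hγ.2], by linarith [hγ.1]⟩
      · intro a _ b _ hab
        simpa using hab
      · intro γ hγ
        exact ⟨-γ, ⟨by linarith [hγ.2], by linarith [hγ.1]⟩, by simp⟩
      · intro γ _
        have := t_SY q χ (-γ)
        rwa [neg_neg] at this
    show (∑ᶠ γ ∈ {γ : ℝ | |γ| ≤ U}, mc χ γ) = (∑ᶠ γ ∈ {γ : ℝ | |γ| ≤ 1}, mc χ γ) + _ + _
    rw [e1, finsum_mem_union' _ (hs0 _ (union_subset hA hB)) (hs0 _ hC),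
      finsum_mem_union' _ (hs0 _ hA) (hs0 _ hB), hneg, sum_pos χ hχ, sum_pos χ⁻¹ (GRHc_inv hχ)]
    · rw [Set.disjoint_left]
      intro γ h1 h2
      rw [mem_ofPred_eq, abs_le] at h1
      linarith [h2.1, h1.2]
    · rw [Set.disjoint_left]
      intro γ h1 h2
      rcases h1 with h1 | h1
      · rw [mem_ofPred_eq, abs_le] at h1
        linarith [h2.2, h1.1]
      · linarith [h2.2, h1.1]
  have l1 := NN_lim (good_dirichlet χ.primitiveCharacter χ.primitiveCharacter_isPrimitive)
  have l2 := NN_lim (good_dirichlet (χ⁻¹).primitiveCharacter (χ⁻¹).primitiveCharacter_isPrimitive)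
  have l0 : Tendsto (fun U : ℝ => (Nm (mc χ) 1 : ℝ) / (U * Real.log U)) atTop (𝓝 0) :=
    (tendsto_id.atTop_mul_atTop₀ Real.tendsto_log_atTop).const_div_atTop _
  have l3 := (l0.add l1).add l2
  have e : (0 : ℝ) + 1 / (2 * Real.pi) + 1 / (2 * Real.pi) = 1 / Real.pi := by
    have := Real.pi_ne_zero
    field_simp
    norm_num
  rw [e] at l3
  refine l3.congr' ?_
  filter_upwards [eventually_ge_atTop 1] with U hU
  rw [hsplit U hU]
  push_cast
  ring

end Pool.Agent.Q195.CP.NT
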