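import Pool.Agent.Q253.CP.Stm
import Pool.Agent.Q119.HV.Zd

set_option autoImplicit false

/-!
# The logarithmic derivative near the critical line (job CP-RL)
-/

namespace Pool.Agent.Q195.CP

open MeasureTheory Filter Topology Set Complex
open Pool.Agent.Q253.HV Pool.Agent.Q253.LQ Pool.Agent.Q253.CP
open DirichletCharacter (completedLFunction gammaFactor rootNumber LFunction)
open H370 H370.DL H370.DG H429.GP H855R2.SF Pool.Agent.Q119.HV

lemma diffAt_GammaR {z : ℂ} (hz : 0 < z.re) : DifferentiableAt ℂ Gammaℝ z := by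
  have hG : Gammaℝ z ≠ 0 := Gammaℝ_ne_zero_of_re_pos hz
  have h := (differentiable_Gammaℝ_inv z).inv (inv_ne_zero hG)
  have e : (fun s : ℂ => (Gammaℝ s)⁻¹)⁻¹ = Gammaℝ := by
    funext w
    simp
  rwa [e] at h

lemma digamR : ∃ C : ℝ, 0 ≤ C ∧ ∀ z : ℂ, 1 / 2 < z.re → z.re ≤ 5 / 2 →
    |(logDeriv Gammaℝ z).re - 1 / 2 * Real.log (2 + |z.im|)| ≤ C := by
  set S : ℝ := ∑' n : ℕ, 1 / ((n : ℝ) + 1) ^ 2 with hS
  have hS0 : 0 ≤ S := tsum_nonneg fun n => by positivity
  refine ⟨|Real.log Real.pi| / 2 + 1 / 2 * (Real.log 4 + 4 + 1 + S), ?_, ?_⟩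
  · have := Real.log_pos (by norm_num : (1 : ℝ) < 4)
    positivity
  intro z h1 h2
  have hz : 0 < z.re := by linarith
  have hre : (z / 2).re = z.re / 2 := by simp
  have him : (z / 2).im = z.im / 2 := by simp
  have hw : 0 < (z / 2).re := by rw [hre]; linarith
  have hne : ∀ m : ℕ, z / 2 ≠ -m := by
    intro m h
    have := congrArg re h
    rw [hre] at this
    simp at this
    have hm : (0 : ℝ) ≤ m := Nat.cast_nonneg m
    linarith
  have hpi : (Real.pi : ℂ) ≠ 0 := ofReal_ne_zero.mpr Real.pi_ne_zero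
  have hform : logDeriv Gammaℝ z = -(Real.log Real.pi : ℂ) / 2 + 1 / 2 * logDeriv Gamma (z / 2) := by
    have d1 : HasDerivAt (fun z : ℂ => (Real.pi : ℂ) ^ (-z / 2))
        ((Real.pi : ℂ) ^ (-z / 2) * log (Real.pi : ℂ) * (-1 / 2)) z := by
      have h1 : HasDerivAt (fun z : ℂ => -z / 2) (-1 / 2) z := by
        simpa using ((hasDerivAt_id z).neg).div_const 2
      exact h1.const_cpow (Or.inl hpi)
    have d2 : HasDerivAt (fun z : ℂ => Gamma (z / 2)) (deriv Gamma (z / 2) * (1 / 2)) z := by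
      have h1 : HasDerivAt (fun z : ℂ => z / 2) (1 / 2) z := by
        simpa using (hasDerivAt_id z).div_const 2
      exact HasDerivAt.comp z (differentiableAt_Gamma _ hne).hasDerivAt h1
    have hG : Gammaℝ = fun z : ℂ => (Real.pi : ℂ) ^ (-z / 2) * Gamma (z / 2) := by
      funext z
      rw [Gammaℝ_def]
    have d3 := d1.mul d2
    have hΓ : Gamma (z / 2) ≠ 0 := Gamma_ne_zero hne
    have hpc : (Real.pi : ℂ) ^ (-z / 2) ≠ 0 := by
      rw [Ne, cpow_eq_zero_iff]
      exact fun h => hpi h.1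
    rw [logDeriv_apply, logDeriv_apply, hG]
    erw [d3.deriv]
    rw [← Complex.ofReal_log Real.pi_pos.le]
    field_simp
  have hrew : (logDeriv Gammaℝ z).re = -(Real.log Real.pi) / 2 +
      1 / 2 * (Real.log ‖z / 2 + 2‖ - (1 / (z / 2)).re - (1 / (z / 2 + 1)).re +
        (∑' n, er n (z / 2)).re) := by
    rw [hform, logDeriv_Gamma' hw, ← Complex.log_re]
    have e1 : (-(Real.log Real.pi : ℂ) / 2) = ((-(Real.log Real.pi) / 2 : ℝ) : ℂ) := by
      push_cast; ring
    have e2 : (1 / 2 : ℂ) = ((1 / 2 : ℝ) : ℂ) := by push_cast; ring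
    rw [add_re, e1, ofReal_re]
    congr 1
    rw [e2, re_ofReal_mul, add_re, sub_re, sub_re]
  have habs := abs_nonneg z.im
  have b1 : |Real.log ‖z / 2 + 2‖ - Real.log (2 + |z.im|)| ≤ Real.log 4 := by
    have hup : ‖z / 2 + 2‖ ≤ 4 * (2 + |z.im|) := by
      refine (norm_le_abs_re_add_abs_im _).trans ?_
      rw [add_re, add_im, hre, him]
      simp only [re_ofNat, im_ofNat, add_zero]
      rw [abs_of_nonneg (by linarith : 0 ≤ z.re / 2 + 2), abs_div, abs_two]
      linarith
    have hlo1 : 2 ≤ ‖z / 2 + 2‖ := by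
      refine le_trans ?_ (re_le_norm _)
      rw [add_re, hre]
      simp only [re_ofNat]
      linarith
    have hlo2 : |z.im| / 2 ≤ ‖z / 2 + 2‖ := by
      refine le_trans ?_ (abs_im_le_norm _)
      rw [add_im, him]
      simp only [im_ofNat, add_zero]
      rw [abs_div, abs_two]
    have h2' : 2 + |z.im| ≤ 4 * ‖z / 2 + 2‖ := by linarith
    rw [abs_le]
    constructor
    · have := Real.log_le_log (by linarith) h2'
      rw [Real.log_mul (by norm_num) (by linarith)] at this
      linarith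
    · have := Real.log_le_log (by linarith) hup
      rw [Real.log_mul (by norm_num) (by linarith)] at this
      linarith
  have b2 : |(1 / (z / 2)).re| ≤ 4 := by
    refine (abs_re_le_norm _).trans ?_
    have : 1 / 4 ≤ ‖z / 2‖ := by
      refine le_trans ?_ (re_le_norm _)
      rw [hre]; linarith
    rw [norm_div, norm_one, div_le_iff₀ (by linarith)]
    linarith
  have b3 : |(1 / (z / 2 + 1)).re| ≤ 1 := by
    refine (abs_re_le_norm _).trans ?_
    have : 1 ≤ ‖z / 2 + 1‖ := by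
      refine le_trans ?_ (re_le_norm _)
      rw [add_re, hre, one_re]; linarith
    rw [norm_div, norm_one, div_le_iff₀ (by linarith)]
    linarith
  have b4 : |(∑' n, er n (z / 2)).re| ≤ S := (abs_re_le_norm _).trans (norm_tsum_er hw)
  have b5 := abs_le.1 b1
  have b6 := abs_le.1 b2
  have b7 := abs_le.1 b3
  have b8 := abs_le.1 b4
  have b9 := le_abs_self (Real.log Real.pi)
  have b10 := neg_abs_le (Real.log Real.pi)
  rw [hrew, abs_le]
  constructor <;> linarith [b5.1, b5.2, b6.1, b6.2, b7.1, b7.2, b8.1, b8.2]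

/-- the logarithmic derivative of `ξ` -/
lemma logDeriv_xi {s : ℂ} (hs : 0 < s.re) (h1 : s ≠ 1) (hζ : riemannZeta s ≠ 0) :
    logDeriv xi s = 1 / s + 1 / (s - 1) + logDeriv Gammaℝ s + logDeriv riemannZeta s := by
  have hs0 : s ≠ 0 := fun h => by rw [h] at hs; simp at hs
  have hG : Gammaℝ s ≠ 0 := Gammaℝ_ne_zero_of_re_pos hs
  have hmem : {w : ℂ | 0 < w.re ∧ w ≠ 1} ∈ 𝓝 s := by
    have ho : IsOpen {w : ℂ | 0 < w.re ∧ w ≠ 1} :=
      (isOpen_lt continuous_const continuous_re).inter isOpen_ne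
    exact ho.mem_nhds ⟨hs, h1⟩
  have hev : xi =ᶠ[𝓝 s] fun w => (w * (w - 1) / 2) * (Gammaℝ w * riemannZeta w) := by
    filter_upwards [hmem] with w hw
    have hw0 : w ≠ 0 := fun h => by
      have := hw.1
      rw [h] at this; simp at this
    have hGw : Gammaℝ w ≠ 0 := Gammaℝ_ne_zero_of_re_pos hw.1
    have hw1 : w - 1 ≠ 0 := sub_ne_zero.2 hw.2
    have hw2 : 1 - w ≠ 0 := sub_ne_zero.2 (Ne.symm hw.2)
    rw [riemannZeta_def_of_ne_zero hw0, mul_div_cancel₀ _ hGw, completedRiemannZeta_eq]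
    unfold xi
    field_simp
    ring
  have d1 : DifferentiableAt ℂ (fun w : ℂ => w * (w - 1) / 2) s := by fun_prop
  have d2 := diffAt_GammaR hs
  have d3 : DifferentiableAt ℂ riemannZeta s := differentiableAt_riemannZeta h1
  have n1 : s * (s - 1) / 2 ≠ 0 :=
    div_ne_zero (mul_ne_zero hs0 (sub_ne_zero.2 h1)) two_ne_zero
  rw [logDeriv_apply, hev.deriv_eq, hev.eq_of_nhds, ← logDeriv_apply
    (fun w => (w * (w - 1) / 2) * (Gammaℝ w * riemannZeta w)),
    logDeriv_mul (f := fun w : ℂ => w * (w - 1) / 2) (g := fun w => Gammaℝ w * riemannZeta w) s n1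
      (mul_ne_zero hG hζ) d1 (d2.mul d3),
    logDeriv_mul (f := Gammaℝ) (g := riemannZeta) s hG hζ d2 d3]
  have e1 : logDeriv (fun w : ℂ => w * (w - 1) / 2) s = 1 / s + 1 / (s - 1) := by
    have hd : HasDerivAt (fun w : ℂ => w * (w - 1) / 2) ((1 * (s - 1) + s * 1) / 2) s := by
      have h := ((hasDerivAt_id s).mul ((hasDerivAt_id s).sub_const 1)).div_const 2
      exact h
    rw [logDeriv_apply, hd.deriv]
    have := sub_ne_zero.2 h1
    field_simp
  rw [e1]
  ring

/-- the logarithmic derivatives of the completed functions -/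
lemma logDeriv_XL_ne {q : ℕ} [NeZero q] {χ : DirichletCharacter ℂ q} [NeZero χ.conductor]
    (hχ : χ ≠ 1) (z : ℂ) :
    logDeriv (XL χ) (1 / 2 + z) = logDeriv (X χ.primitiveCharacter) z := by
  have hψ : χ.primitiveCharacter.IsPrimitive := χ.primitiveCharacter_isPrimitive
  have hc := cc_ne hψ
  have hNc : (χ.conductor : ℂ) ≠ 0 := by exact_mod_cast NeZero.ne χ.conductor
  have hA : (χ.conductor : ℂ) ^ ((1 : ℂ) / 4) / cc χ.primitiveCharacter ≠ 0 := by
    refine div_ne_zero ?_ hc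
    rw [Ne, cpow_eq_zero_iff]
    exact fun h => hNc h.1
  have e : (fun w : ℂ => XL χ (1 / 2 + w)) =
      fun w => ((χ.conductor : ℂ) ^ ((1 : ℂ) / 4) / cc χ.primitiveCharacter) *
        X χ.primitiveCharacter w := by
    funext w
    unfold XL X
    rw [if_neg hχ]
    have : ((1 : ℂ) / 2 + w) / 2 = 1 / 4 + w / 2 := by ring
    rw [this, cpow_add _ _ hNc]
    field_simp
  have e2 : logDeriv (fun w : ℂ => XL χ (1 / 2 + w)) z = logDeriv (XL χ) (1 / 2 + z) := by
    rw [logDeriv_apply, logDeriv_apply]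
    congr 1
    exact deriv_comp_const_add (f := XL χ) (1 / 2) z
  rw [← e2, e]
  exact logDeriv_const_mul z _ hA

theorem t_RL (hPF : Pool.Agent.Q253.LQ.S_PF) : S_RL := by
  obtain ⟨C0, hC0, hdig⟩ := digamR
  intro q _ χ hχ
  obtain ⟨-, hpf, -⟩ := hPF q χ hχ
  have hZZ : ∀ δ y : ℝ, 0 < δ → (logDeriv (XL χ) (1 / 2 + pt δ y)).re = ZZ (mc χ) δ y := by
    intro δ y hδ
    have hre : (pt δ y).re = δ := by simp [pt]
    rw [hpf _ (by rw [hre]; exact hδ)]
    unfold ZZ
    refine tsum_congr fun γ => ?_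
    congr 1
    have e : pt δ y - (γ : ℂ) * I = pt δ (y - γ) := by unfold pt; push_cast; ring
    rw [e, one_div, inv_re]
    unfold pt
    rw [normSq_add_mul_I]
    simp
  have hpt : ∀ δ y : ℝ, pt (1 / 2 + δ) y = 1 / 2 + pt δ y := by
    intro δ y
    unfold pt
    push_cast
    ring
  by_cases h1 : χ = 1
  · -- the principal character
    subst h1
    set P : ℝ := ∑ p ∈ q.primeFactors, Real.log p / (Real.sqrt p - 1) with hP
    refine ⟨C0 + P + 6, fun δ y hδ hδ4 => ?_⟩
    set s : ℂ := 1 / 2 + pt δ y with hs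
    have hzre : (pt δ y).re = δ := by simp [pt]
    have hzim : (pt δ y).im = y := by simp [pt]
    have hsre : s.re = 1 / 2 + δ := by rw [hs, add_re, half_re, hzre]
    have hsim : s.im = y := by
      rw [hs, add_im, hzim]
      norm_num
    have hs1 : s ≠ 1 := fun h => by
      have := congrArg re h
      rw [hsre, one_re] at this
      linarith
    have hfac : ∀ w : ℂ, w ≠ 1 → LFunction (1 : DirichletCharacter ℂ q) w =
        (∏ p ∈ q.primeFactors, (1 - 1 * (p : ℂ) ^ (-w))) * riemannZeta w := fun w hw => by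
      have h := DirichletCharacter.LFunctionTrivChar_eq_mul_riemannZeta (N := q) hw
      simp only [one_mul]
      exact h
    have hLs : LFunction (1 : DirichletCharacter ℂ q) s ≠ 0 :=
      hχ s (by rw [hsre]; linarith) (by rw [hsre]; linarith)
    have hζ : riemannZeta s ≠ 0 := fun h => by
      apply hLs
      rw [hfac s hs1, h, mul_zero]
    have hfp : ∀ p ∈ q.primeFactors, 1 - 1 * (p : ℂ) ^ (-s) ≠ 0 ∧
        DifferentiableAt ℂ (fun s : ℂ => 1 - 1 * (p : ℂ) ^ (-s)) s ∧
        ‖logDeriv (fun s : ℂ => 1 - 1 * (p : ℂ) ^ (-s)) s‖ ≤ Real.log p / (Real.sqrt p - 1) :=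
      fun p hp => logDeriv_factor (Nat.prime_of_mem_primeFactors hp) (by simp)
        (by rw [hsre]; linarith)
    have hev : LFunction (1 : DirichletCharacter ℂ q) =ᶠ[𝓝 s]
        fun w => (∏ p ∈ q.primeFactors, (1 - 1 * (p : ℂ) ^ (-w))) * riemannZeta w := by
      filter_upwards [isOpen_ne.mem_nhds hs1] with w hw
      exact hfac w hw
    have hd : DifferentiableAt ℂ (fun s : ℂ => ∏ p ∈ q.primeFactors, (1 - 1 * (p : ℂ) ^ (-s))) s :=
      DifferentiableAt.fun_finsetProd fun p hp => (hfp p hp).2.1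
    have hprod : logDeriv (LFunction (1 : DirichletCharacter ℂ q)) s =
        ∑ p ∈ q.primeFactors, logDeriv (fun s : ℂ => 1 - 1 * (p : ℂ) ^ (-s)) s +
          logDeriv riemannZeta s := by
      rw [logDeriv_apply, hev.deriv_eq, hev.eq_of_nhds, ← logDeriv_apply
        (fun w => (∏ p ∈ q.primeFactors, (1 - 1 * (p : ℂ) ^ (-w))) * riemannZeta w),
        logDeriv_mul (f := fun w => ∏ p ∈ q.primeFactors, (1 - 1 * (p : ℂ) ^ (-w)))
          (g := riemannZeta) s (Finset.prod_ne_zero_iff.2 fun p hp => (hfp p hp).1) hζ hd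
          (differentiableAt_riemannZeta hs1)]
      congr 1
      exact logDeriv_prod (s := q.primeFactors) (f := fun p (s : ℂ) => 1 - 1 * (p : ℂ) ^ (-s))
        (x := s) (fun p hp => (hfp p hp).1) (fun p hp => (hfp p hp).2.1)
    have hX := hZZ δ y hδ
    rw [← hs] at hX
    have hXL : XL (1 : DirichletCharacter ℂ q) = xi := by
      funext w
      unfold XL
      rw [if_pos rfl]
    rw [hXL, logDeriv_xi (by rw [hsre]; linarith) hs1 hζ] at hX
    have hS : ‖∑ p ∈ q.primeFactors, logDeriv (fun s : ℂ => 1 - 1 * (p : ℂ) ^ (-s)) s‖ ≤ P :=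
      (norm_sum_le _ _).trans (Finset.sum_le_sum fun p hp => (hfp p hp).2.2)
    have hG := hdig s (by rw [hsre]; linarith) (by rw [hsre]; linarith)
    rw [hsim] at hG
    have b1 : |(1 / s).re| ≤ 2 := by
      refine (abs_re_le_norm _).trans ?_
      have : 1 / 2 ≤ ‖s‖ := by
        refine le_trans ?_ (re_le_norm _)
        rw [hsre]; linarith
      rw [norm_div, norm_one, div_le_iff₀ (by linarith)]
      linarith
    have b2 : |(1 / (s - 1)).re| ≤ 4 := by
      refine (abs_re_le_norm _).trans ?_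
      have : 1 / 4 ≤ ‖s - 1‖ := by
        refine le_trans ?_ (abs_re_le_norm _)
        rw [sub_re, hsre, one_re, abs_of_nonpos (by linarith)]
        linarith
      rw [norm_div, norm_one, div_le_iff₀ (by linarith)]
      linarith
    have b3 := (abs_re_le_norm _).trans hS
    rw [hpt, ← hs, hprod, ← hX]
    simp only [add_re]
    set E : ℝ := (∑ p ∈ q.primeFactors, logDeriv (fun s : ℂ => 1 - 1 * (p : ℂ) ^ (-s)) s).re
    have c1 := abs_le.1 b1
    have c2 := abs_le.1 b2
    have c3 := abs_le.1 b3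
    have c4 := abs_le.1 hG
    rw [abs_le]
    constructor <;> linarith [c1.1, c1.2, c2.1, c2.2, c3.1, c3.2, c4.1, c4.2]
  · haveI : NeZero χ.conductor := ⟨χ.conductor_ne_zero⟩
    set ψ := χ.primitiveCharacter with hψdef
    have hψ : ψ.IsPrimitive := χ.primitiveCharacter_isPrimitive
    have hN : 1 < χ.conductor := by
      have h2 : χ.conductor ≠ 1 := fun h => h1 (DirichletCharacter.eq_one_iff_conductor_eq_one.2 h)
      have h3 := NeZero.ne χ.conductor
      omega
    have hψ1 : ψ ≠ 1 := ne_one_of_prim hN hψ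
    have hfac : ∀ s : ℂ, LFunction χ s = LFunction ψ s *
        ∏ p ∈ q.primeFactors, (1 - ψ p * (p : ℂ) ^ (-s)) := fun s => by
      have h := DirichletCharacter.LFunction_changeLevel χ.conductor_dvd_level ψ (s := s) (Or.inl hψ1)
      rwa [χ.changeLevel_primitiveCharacter] at h
    set P : ℝ := ∑ p ∈ q.primeFactors, Real.log p / (Real.sqrt p - 1) with hP
    refine ⟨C0 + P + 1 / 2 * Real.log χ.conductor, fun δ y hδ hδ4 => ?_⟩
    set z : ℂ := pt δ y with hz
    have hzre : z.re = δ := by simp [hz, pt]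
    have hzim : z.im = y := by simp [hz, pt]
    have hsre : (1 / 2 + z).re = 1 / 2 + δ := by rw [add_re, half_re, hzre]
    have hLs : LFunction ψ (1 / 2 + z) ≠ 0 := fun h => by
      refine hχ (1 / 2 + z) (by rw [hsre]; linarith) (by rw [hsre]; linarith) ?_
      rw [hfac, h, zero_mul]
    have hX := logDeriv_X hN hψ (z := z) (by rw [hzre]; exact hδ) hLs
    have hfp : ∀ p ∈ q.primeFactors, 1 - ψ p * (p : ℂ) ^ (-(1 / 2 + z)) ≠ 0 ∧
        DifferentiableAt ℂ (fun s : ℂ => 1 - ψ p * (p : ℂ) ^ (-s)) (1 / 2 + z) ∧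
        ‖logDeriv (fun s : ℂ => 1 - ψ p * (p : ℂ) ^ (-s)) (1 / 2 + z)‖ ≤ Real.log p / (Real.sqrt p - 1) :=
      fun p hp => logDeriv_factor (Nat.prime_of_mem_primeFactors hp) (DirichletCharacter.norm_le_one ψ _)
        (by rw [hsre]; linarith)
    have hprod : logDeriv (LFunction χ) (1 / 2 + z) = logDeriv (LFunction ψ) (1 / 2 + z) +
        ∑ p ∈ q.primeFactors, logDeriv (fun s : ℂ => 1 - ψ p * (p : ℂ) ^ (-s)) (1 / 2 + z) := by
      have e : LFunction χ = fun s => LFunction ψ s * ∏ p ∈ q.primeFactors, (1 - ψ p * (p : ℂ) ^ (-s)) :=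
        funext hfac
      have hd : DifferentiableAt ℂ (fun s : ℂ => ∏ p ∈ q.primeFactors, (1 - ψ p * (p : ℂ) ^ (-s)))
          (1 / 2 + z) := DifferentiableAt.fun_finsetProd fun p hp => (hfp p hp).2.1
      rw [e, logDeriv_mul _ hLs (Finset.prod_ne_zero_iff.2 fun p hp => (hfp p hp).1)
        (DirichletCharacter.differentiable_LFunction hψ1 _) hd]
      congr 1
      have h := logDeriv_prod (s := q.primeFactors) (f := fun p (s : ℂ) => 1 - ψ p * (p : ℂ) ^ (-s))
        (x := 1 / 2 + z) (fun p hp => (hfp p hp).1) (fun p hp => (hfp p hp).2.1)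
      exact h
    have hG := hdig (1 / 2 + z + aa ψ) (by
      have := aa_re_nonneg (χ := ψ)
      rw [add_re, hsre]
      linarith) (by
      have := aa_re_le (ψ := ψ)
      rw [add_re, hsre]
      linarith)
    have him : (1 / 2 + z + aa ψ).im = y := by
      rw [add_im, add_im, aa_im, hzim]
      norm_num
    rw [him] at hG
    have hS : ‖∑ p ∈ q.primeFactors, logDeriv (fun s : ℂ => 1 - ψ p * (p : ℂ) ^ (-s)) (1 / 2 + z)‖ ≤ P :=
      (norm_sum_le _ _).trans (Finset.sum_le_sum fun p hp => (hfp p hp).2.2)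
    have hZ := hZZ δ y hδ
    rw [← hz, logDeriv_XL_ne h1, ← hψdef, hX] at hZ
    have e2 : ((1 / 2 : ℂ) * (Real.log χ.conductor : ℂ)).re = (1 / 2) * Real.log (χ.conductor : ℝ) := by
      have : (1 / 2 : ℂ) * (Real.log χ.conductor : ℂ) = (((1 / 2) * Real.log χ.conductor : ℝ) : ℂ) := by
        push_cast
        ring
      rw [this, ofReal_re]
    have hlc : 0 ≤ Real.log (χ.conductor : ℝ) := Real.log_natCast_nonneg _
    have b3 := (abs_re_le_norm _).trans hS
    rw [hpt, ← hz, hprod, ← hZ]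
    simp only [add_re, e2]
    have c3 := abs_le.1 b3
    have c4 := abs_le.1 hG
    set E : ℝ := (∑ p ∈ q.primeFactors, logDeriv (fun s : ℂ => 1 - ψ p * (p : ℂ) ^ (-s)) (1 / 2 + z)).re
    rw [abs_le]
    constructor <;> linarith [c3.1, c3.2, c4.1, c4.2]

end Pool.Agent.Q195.CP
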